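import Pool.Agent.TH85.QE.TFin

open Pool.Agent.TH85.QE IntermediateField

namespace Pool.Agent.Results.MP_ddf76b_nt.CubeRootOfDiscriminantTwist

/-- Let `E` be an elliptic curve over a number field `K` whose 3-division polynomial `Ψ₃` has
Galois group `S₄` over `K` (four roots `x i` in the Galois extension `L`, permuted by `Gal(L/K)`
in all 24 ways: `F.FullRoots x`), and let `δ ^ 3 = Δ(E)`. Then `c₄ - 12 δ ≠ 0`, and the 3-parity conjecture holds
for `E` over `K` if and only if it holds for the quadratic twist of `E` by `c₄ - 12 δ` over the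
pure cubic extension `K(δ)`. -/
theorem result (rk3 : Curve → ℕ) (w : Curve → ℤˣ) (hw : Facts rk3 w) (ht : Twisting rk3 w)
    (hiso : ∀ X, Has3Isogeny X → Parity rk3 w X) (X : Curve) (F : GalExt X) (x : Fin 4 → F.L)
    (hx : F.FullRoots x) (δ : F.L) (hδ : δ ^ 3 = F.top.E.Δ) :
    ∃ hd : F.dd δ ≠ 0,
      (Parity rk3 w X ↔ Parity rk3 w ((F.mid X.K⟮δ⟯).twist (F.dd δ) hd)) :=
  tmain F x hx.inj hx.root hx.full hw ht hiso δ hδ

end Pool.Agent.Results.MP_ddf76b_nt.CubeRootOfDiscriminantTwist
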