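import Pool.Agent.TH613.PZ.Main

/-!
# The p-parity conjecture: reduction to elliptic curves without Galois descent

`NF` is the type of algebraic extensions of `ℚ` in an algebraic closure of `ℚ`, `Fin K` says that `K`
is a number field, and `fix L B` is the fixed field in `L` of a group `B` of automorphisms of `L`.
`T : Curves` records the elliptic curves over the fields `K`, isogeny over `K`, base change and
quadratic twists. `ParityLike T P` says that the property `P K E` of an elliptic curve `E` over a
number field `K` behaves like the p-parity conjecture `(-1) ^ rk_p(E / K) = w(E / K)`:
* it is invariant under isogenies over `K`,
* `P` for the base change of `E / L^B` to `L` is equivalent to `P` for `E / L^B` if `|B|` is odd,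
* `P` for the base change of `E / L^B` to `L`, `|B| = 2`, follows from `P` for `E / L^B` and for its
  twist by the quadratic character of `L / L^B`.

Theorem. `P` holds for all elliptic curves over all number fields if and only if it holds for all
`E / K` which are not isogenous over `K` to the base change of a curve over a proper subfield `F` of
`K` such that either `K / F` is Galois, or `K` is contained in a Galois extension of `F` of odd
degree.
-/

set_option autoImplicit false

namespace Pool.Agent.Results.MP_ddf76b_nt.NoGaloisDescent

open Pool.Agent.TH613 Pool.Agent.TH613.MU Pool.Agent.TH613.PZ

/-- The p-parity conjecture for all elliptic curves over number fields follows from its case for the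
curves without Galois descent and without odd descent. -/
theorem result (T : Curves) (P : ∀ K : NF, T.Curve K → Prop) (h : PZ.ParityLike T P) :
    (∀ (K : NF), Fin K → ∀ E : T.Curve K, P K E) ↔
      ∀ (K : NF), Fin K → ∀ E : T.Curve K, ¬ GaloisDescent T K E → ¬ OddDescent T K E → P K E :=
  PZ.main T P h

end Pool.Agent.Results.MP_ddf76b_nt.NoGaloisDescent
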