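import Pool.Agent.TH85.QE.PMain

open Pool.Agent.TH85.QE

namespace Pool.Agent.Results.MP_ddf76b_nt.PrimeToPDivisionField

/-- Let `p` be an odd prime. The `p`-parity conjecture for all elliptic curves over number fields is
equivalent to its case of the `E/K` without `K`-rational `p`-isogeny such that `p` does not divide
`[K(E[p]) : K]` and `Gal(K(E[p])/K)` is 2-quasi-elementary without proper normal subgroups of odd
index. For `p = 3` it is equivalent to its case of the `E/K` without 3-isogeny such that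
`[K(E[3]) : K]` is a power of two. -/
theorem result (p : ℕ) [Fact p.Prime] (h2 : p ≠ 2) (rkp : Curve → ℕ) (w : Curve → ℤˣ)
    (hw : Facts rkp w) (hdiv : ∀ X, ∃ F : GalExt X, F.IsDivisionField p)
    (hiso : ∀ X, HasIsogeny p X → Parity rkp w X) :
    ((∀ X, Parity rkp w X) ↔
      (∀ X, ¬ HasIsogeny p X → (∃ F : GalExt X, F.IsDivisionField p ∧ ¬ p ∣ Nat.card F.Gal ∧
        QuasiElementary F.Gal ∧ NoOddQuotient F.Gal) → Parity rkp w X)) ∧
    (p = 3 → ((∀ X, Parity rkp w X) ↔
      (∀ X, ¬ HasIsogeny 3 X → (∃ F : GalExt X, F.IsDivisionField 3 ∧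
        ∃ k, Nat.card F.Gal = 2 ^ k) → Parity rkp w X))) := by
  refine ⟨pmain hw p h2 hdiv hiso, ?_⟩
  rintro rfl
  exact pmain3 hw hdiv hiso

end Pool.Agent.Results.MP_ddf76b_nt.PrimeToPDivisionField
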