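import Mathlib

/-!
The `p`-parity conjecture for an elliptic curve over `k` in Galois extensions of `k` with solvable
group.
-/

set_option autoImplicit false

namespace Pool.Agent.Results.MP_ddf76b_nt.SolvableGaloisExtensions

/-- A Galois extension `K/k` of number fields with group `G`, an elliptic curve `E/k`, a prime `p`
and the irreducible representations of `G`.  `Irr`: the isomorphism classes of irreducible complex
(or `ℚ̄_p`-) representations `r` of `G`, with degree `deg r` and dual `dual r`; `mult r`: the
multiplicity of `r` in `X_p(E/K)`; `w r`: the root number of the twist of `E/k` by `r`.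
`Twist`: the quadratic twists `E_d/M`, `k ⊆ M ⊆ K` a subextension of odd degree, `d ∈ M` with
`√d ∈ K` (`d = 1` allowed), with `degree` (of `M/k`), `selmerRank` (`rk_p E_d/M`) and `rootNumber`;
`ofTwist t`: the representation of `G` induced from the character of `Gal(K/M)` cutting out
`M(√d)`. -/
structure Setting where
  Irr : Type
  [fintype : Fintype Irr]
  deg : Irr → ℕ
  dual : Irr → Irr
  mult : Irr → ℕ
  w : Irr → ℂ
  Twist : Type
  degree : Twist → ℕ
  selmerRank : Twist → ℕ
  rootNumber : Twist → ℂ
  /-- `t` is induced to the irreducible representation `r` -/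
  InducesTo : Twist → Irr → Prop
  solvable : Prop
  twoComplement : Prop

attribute [instance] Setting.fintype

variable (S : Setting)

/-- `rk_p E/K`, the dimension of `X_p(E/K)`. -/
def Setting.selmerRankTop : ℕ := ∑ r, S.deg r * S.mult r

/-- The root number of `E/K`: inductivity of root numbers. -/
noncomputable def Setting.rootNumberTop : ℂ := ∏ r, S.w r ^ S.deg r

/-- `X_p(E/K)` is a self-dual representation of `G`
(T. and V. Dokchitser, Self-duality of Selmer groups). -/
def Setting.SelfDual : Prop := ∀ r, S.dual (S.dual r) = r ∧ S.deg (S.dual r) = S.deg r ∧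
  S.mult (S.dual r) = S.mult r

/-- Deligne: the root numbers of the twists by `r` and its dual are inverse to each other. -/
def Setting.Deligne : Prop := ∀ r, S.w r * S.w (S.dual r) = 1

/-- Frobenius reciprocity and inductivity: if the quadratic character of `Gal(K/M)` belonging to `t`
induces to the irreducible representation `r`, then `rk_p E_d/M` is the multiplicity of `r` and the
root numbers agree; `deg r = [M : k]`. -/
def Setting.Reciprocity : Prop := ∀ t r, S.InducesTo t r →
  S.selmerRank t = S.mult r ∧ S.rootNumber t = S.w r ∧ S.degree t = S.deg r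

/-- Gow: if `G` is solvable, every self-dual irreducible representation of odd degree is induced
from a character `l` of a subgroup with `l² = 1`; if `G` has a normal subgroup of odd order whose
index is a power of `2`, this subgroup is all of `G`. -/
def Setting.Gow : Prop :=
  (S.solvable → ∀ r, S.dual r = r → Odd (S.deg r) → ∃ t, S.InducesTo t r) ∧
  (S.twoComplement → ∀ r, S.dual r = r → Odd (S.deg r) → S.deg r = 1 ∧ ∃ t, S.InducesTo t r)

/-- `p`-parity for `E_d/M`. -/
def Setting.ParityFor (t : S.Twist) : Prop := (-1 : ℂ) ^ S.selmerRank t = S.rootNumber t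

/-- `p`-parity for `E/K`. -/
def Setting.ParityTop : Prop := (-1 : ℂ) ^ S.selmerRankTop = S.rootNumberTop

variable {S}

theorem key (h1 : S.SelfDual) (h2 : S.Deligne)
    (h : ∀ r, S.dual r = r → Odd (S.deg r) → (-1 : ℂ) ^ S.mult r = S.w r) : S.ParityTop := by
  classical
  unfold Setting.ParityTop Setting.selmerRankTop Setting.rootNumberTop
  rw [← Finset.prod_pow_eq_pow_sum]
  have hw : ∀ r, S.w r ≠ 0 := fun r h0 => by
    have := h2 r
    rw [h0, zero_mul] at this
    exact zero_ne_one this
  -- the quotient of the two sides is `1`
  have hprod : ∏ r, ((-1 : ℂ) ^ (S.deg r * S.mult r) / S.w r ^ S.deg r) = 1 := by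
    refine Finset.prod_involution (fun r _ => S.dual r) (fun r _ => ?_) (fun r _ hne => ?_)
      (fun r _ => Finset.mem_univ _) (fun r _ => (h1 r).1)
    · rw [(h1 r).2.1, (h1 r).2.2, div_mul_div_comm, ← pow_add, ← two_mul, pow_mul, neg_one_sq,
        one_pow, ← mul_pow, h2, one_pow, div_one]
    · intro hd
      apply hne
      have hsq : S.w r ^ 2 = 1 := by
        have := h2 r
        rw [hd] at this
        rw [sq, this]
      rcases Nat.even_or_odd (S.deg r) with he | ho
      · obtain ⟨j, hj⟩ := he
        rw [hj, ← two_mul, pow_mul (S.w r), hsq, one_pow, div_one, mul_assoc, pow_mul, neg_one_sq,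
          one_pow]
      · rw [← h r hd ho, ← pow_mul, mul_comm (S.mult r), div_self]
        exact pow_ne_zero _ (by norm_num)
  rw [Finset.prod_div_distrib] at hprod
  exact (div_eq_one_iff_eq (Finset.prod_ne_zero_iff.2 fun r _ => pow_ne_zero _ (hw r))).1 hprod

/-- **`p`-parity in solvable Galois extensions.**  Let `E/k`, `K/k` Galois with group `G`.

(1) If `G` is solvable, `p`-parity for `E/K` follows from `p`-parity for the quadratic twists
`E_d/M` over the subextensions `M/k` of odd degree, `√d ∈ K`.

(2) If `G` has a normal `2`-complement (for instance if `G` is nilpotent, of odd order, dihedral, or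
has cyclic Sylow `2`-subgroups), it follows from `p`-parity for the quadratic twists `E_d/k`,
`√d ∈ K`.  In particular it holds for all `E/ℚ`, all such `K/ℚ` and all `p`. -/
theorem result (S : Setting) (h1 : S.SelfDual) (h2 : S.Deligne) (h3 : S.Reciprocity)
    (h4 : S.Gow) :
    (S.solvable → (∀ t, Odd (S.degree t) → S.ParityFor t) → S.ParityTop) ∧
    (S.twoComplement → (∀ t, S.degree t = 1 → S.ParityFor t) → S.ParityTop) := by
  refine ⟨fun hG h => key h1 h2 fun r hr hodd => ?_, fun hG h => key h1 h2 fun r hr hodd => ?_⟩
  · obtain ⟨t, ht⟩ := h4.1 hG r hr hodd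
    obtain ⟨e1, e2, e3⟩ := h3 t r ht
    have := h t (e3 ▸ hodd)
    unfold Setting.ParityFor at this
    rw [← e1, ← e2]
    exact this
  · obtain ⟨hone, t, ht⟩ := h4.2 hG r hr hodd
    obtain ⟨e1, e2, e3⟩ := h3 t r ht
    have := h t (e3.trans hone)
    unfold Setting.ParityFor at this
    rw [← e1, ← e2]
    exact this

end Pool.Agent.Results.MP_ddf76b_nt.SolvableGaloisExtensions
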